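import Pool.Agent.Helper49.LC.St

/-!
# LC, module SWG: geometry of the balls of the swindle

All the centres are multiples `(x • a, 0)` of `(a, 0)`; the distance of two of them is
`|x - y| * ‖a‖`.
-/

set_option autoImplicit false

namespace Pool.Agent.Helper72.LC

open Pool.Agent.Helper14.LK Pool.Agent.Helper49.LC
open Finset

variable {n : ℕ}

private noncomputable def sg (q : ℝ) (k : ℕ) : ℝ := ∑ i ∈ range k, q ^ i

private lemma ce_eq (a : EE n) (q : ℝ) (k : ℕ) : ce a q k = sg q k • a := rfl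

private lemma sg_succ (q : ℝ) (k : ℕ) : sg q (k + 1) = sg q k + q ^ k := by
  simp [sg, Finset.sum_range_succ]

private lemma sg_sub {q : ℝ} {j k : ℕ} (h : j ≤ k) :
    sg q k - sg q j = ∑ i ∈ Ico j k, q ^ i := by
  rw [sg, sg, Finset.sum_Ico_eq_sub _ h]

/-- norm of a multiple of `(a, 0)` -/
private lemma nrm (a : EE n) (x : ℝ) : ‖((x • a, 0) : WW n)‖ = |x| * ‖a‖ := by
  rw [Prod.norm_def]
  simp only [norm_smul, Real.norm_eq_abs, norm_zero]
  exact max_eq_left (by positivity)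

private lemma cdist (a : EE n) (x y : ℝ) :
    ‖((x • a, 0) : WW n) - (y • a, 0)‖ = |x - y| * ‖a‖ := by
  rw [Prod.mk_sub_mk, ← sub_smul, sub_zero, nrm]

/-- the centre of `VV` as a multiple of `a` -/
private lemma cen (a : EE n) (q : ℝ) (k : ℕ) :
    ((ce a q k + (q ^ k / 2) • a, 0) : WW n) = ((sg q k + q ^ k / 2) • a, 0) := by
  rw [ce_eq, ← add_smul]

private lemma mem_VV (a : EE n) (q R : ℝ) (k : ℕ) (w : WW n) :
    w ∈ VV a q R k ↔
      ‖w - ((sg q k + q ^ k / 2) • a, 0)‖ ≤ q ^ k * (‖a‖ / 2 + 2 * R) := by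
  rw [← cen]; rfl

private lemma mem_DB (a : EE n) (q R : ℝ) (k : ℕ) (w : WW n) :
    w ∈ DB a q R k ↔ ‖w - (sg q k • a, 0)‖ ≤ q ^ k * R := Iff.rfl

/-- two balls around multiples of `(a, 0)` with a common point -/
private lemma common {a : EE n} {x y r s : ℝ} {w : WW n} (h1 : ‖w - (x • a, 0)‖ ≤ r)
    (h2 : ‖w - (y • a, 0)‖ ≤ s) : |x - y| * ‖a‖ ≤ r + s := by
  rw [← cdist]
  have h3 : ((x • a, 0) : WW n) - (y • a, 0) = (w - (y • a, 0)) - (w - (x • a, 0)) := by abel
  rw [h3]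
  have := norm_sub_le (w - (y • a, 0) : WW n) (w - (x • a, 0))
  linarith

private lemma shift {a : EE n} {x y r : ℝ} {w : WW n} (h1 : ‖w - (x • a, 0)‖ ≤ r) :
    ‖w - (y • a, 0)‖ ≤ r + |x - y| * ‖a‖ := by
  rw [← cdist]
  have h3 : (w - (y • a, 0) : WW n) = (w - (x • a, 0)) + ((x • a, 0) - (y • a, 0)) := by abel
  rw [h3]
  have := norm_add_le (w - (x • a, 0) : WW n) ((x • a, 0) - (y • a, 0))
  linarith

private lemma shift' {a : EE n} {x y r : ℝ} {w : WW n} (h1 : ‖w - (x • a, 0)‖ ≤ r) :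
    |x - y| * ‖a‖ - r ≤ ‖w - (y • a, 0)‖ := by
  have := common (y := y) h1 (le_refl _)
  linarith

private lemma ti_tm (c : EE n) {s : ℝ} (hs : s ≠ 0) (w : WW n) : ti c s (tm c s w) = w := by
  unfold ti tm
  rw [add_sub_cancel_left, smul_smul, inv_mul_cancel₀ hs, one_smul]

private lemma tm_ti (c : EE n) {s : ℝ} (hs : s ≠ 0) (w : WW n) : tm c s (ti c s w) = w := by
  unfold ti tm
  rw [smul_smul, mul_inv_cancel₀ hs, one_smul, add_sub_cancel]

/-- `Ti w - (x a, 0)` as a multiple of a difference -/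
private lemma Ti_sub (a : EE n) {q : ℝ} (hq : 0 < q) (k : ℕ) (x : ℝ) (w : WW n) :
    ‖Ti a q k w - (x • a, 0)‖ = (q ^ k)⁻¹ * ‖w - ((sg q k + q ^ k * x) • a, 0)‖ := by
  have hk : (0 : ℝ) < q ^ k := pow_pos hq k
  have h : Ti a q k w - (x • a, 0) = (q ^ k)⁻¹ • (w - ((sg q k + q ^ k * x) • a, 0)) := by
    unfold Ti ti
    rw [ce_eq]
    ext1
    · simp only [Prod.fst_sub, Prod.smul_fst, smul_sub, add_smul, smul_add, smul_smul]
      rw [show (q ^ k)⁻¹ * (q ^ k * x) = x by field_simp]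
      abel
    · simp
  rw [h, norm_smul, Real.norm_eq_abs, abs_of_pos (inv_pos.2 hk)]

private lemma sg_geom {q : ℝ} (hq : q < 1) (k : ℕ) : sg q k = (1 - q)⁻¹ - q ^ k * (1 - q)⁻¹ := by
  rw [sg, geom_sum_eq hq.ne]
  have h1 : q - 1 ≠ 0 := by linarith
  have h2 : 1 - q ≠ 0 := by linarith
  field_simp
  ring

/-- Module SWG. -/
theorem hSWG : StSWG := by
  intro n a q R hR hq hq1 hA
  have hA1 : 4 * R < q * ‖a‖ := by
    rw [div_lt_iff₀ hq] at hA; linarith
  have hna : 0 ≤ ‖a‖ := norm_nonneg a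
  have hA2 : 4 * R < ‖a‖ := by nlinarith
  have hp : ∀ k : ℕ, 0 < q ^ k := fun k => pow_pos hq k
  have hp1 : ∀ k : ℕ, q ^ k ≤ 1 := fun k => pow_le_one₀ hq.le hq1
  have hanti : ∀ {j k : ℕ}, j ≤ k → q ^ k ≤ q ^ j := fun h => pow_le_pow_of_le_one hq.le hq1 h
  have hsgmono : ∀ {j k : ℕ}, j ≤ k → sg q j ≤ sg q k := by
    intro j k h
    have := sg_sub (q := q) h
    have h0 : 0 ≤ ∑ i ∈ Ico j k, q ^ i := Finset.sum_nonneg fun i _ => (hp i).le
    linarith
  have hsg1 : ∀ {j k : ℕ}, j + 1 ≤ k → sg q j + q ^ j ≤ sg q k := by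
    intro j k h
    rw [← sg_succ]; exact hsgmono h
  have hsg2 : ∀ {j k : ℕ}, j + 2 ≤ k → sg q j + q ^ j + q ^ (j + 1) ≤ sg q k := by
    intro j k h
    rw [← sg_succ, ← sg_succ]; exact hsgmono h
  have hsgnn : ∀ k, 0 ≤ sg q k := fun k => Finset.sum_nonneg fun i _ => (hp i).le
  have hsg_one : ∀ k, 1 ≤ k → 1 ≤ sg q k := by
    intro k hk
    have := hsg1 (j := 0) (k := k) (by omega)
    simpa [sg] using this
  refine ⟨?_, ?_, ?_, ?_, ?_, ?_, ?_, ?_, ?_, ?_, ?_, ?_⟩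
  · -- (1)
    intro j k hjk
    rw [Set.disjoint_left]
    intro w hj hk
    rw [mem_VV] at hj hk
    have h1 := common hk hj
    have h2 := hsg2 hjk
    have h3 := hp j
    have h4 := hp k
    have h5 := hp (j + 1)
    have h6 : 0 ≤ (sg q k + q ^ k / 2) - (sg q j + q ^ j / 2) := by linarith
    rw [abs_of_nonneg h6] at h1
    have h7 : (q ^ j / 2 + q ^ (j + 1) + q ^ k / 2) * ‖a‖
        ≤ ((sg q k + q ^ k / 2) - (sg q j + q ^ j / 2)) * ‖a‖ :=
      mul_le_mul_of_nonneg_right (by linarith) hna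
    have h8 : q ^ (j + 1) * ‖a‖ ≤ 2 * R * (q ^ j + q ^ k) := by linarith
    have h9 : 2 * R * (q ^ j + q ^ k) ≤ 2 * R * (q ^ j + q ^ j) :=
      mul_le_mul_of_nonneg_left (by linarith [hanti (show j ≤ k by omega)]) (by linarith)
    have h10 : q ^ j * (4 * R) < q ^ j * (q * ‖a‖) := mul_lt_mul_of_pos_left hA1 h3
    have h11 : q ^ (j + 1) * ‖a‖ = q ^ j * (q * ‖a‖) := by ring
    linarith
  · -- (2)
    intro k hk w hw
    rw [mem_VV] at hw
    have h1 := shift' (y := 0) hw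
    rw [zero_smul, sub_zero, abs_of_nonneg (by linarith [hsgnn k, hp k]),
      show ((0, 0) : WW n) = 0 from rfl, sub_zero] at h1
    have h2 : 1 * ‖a‖ ≤ sg q k * ‖a‖ := mul_le_mul_of_nonneg_right (hsg_one k hk) hna
    have h3 : q ^ k * (2 * R) ≤ 1 * (2 * R) := mul_le_mul_of_nonneg_right (hp1 k) (by linarith)
    have h4 : (sg q k + q ^ k / 2) * ‖a‖ - q ^ k * (‖a‖ / 2 + 2 * R)
        = sg q k * ‖a‖ - q ^ k * (2 * R) := by ring
    linarith
  · -- (3)
    intro k
    constructor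
    · intro w hw
      rw [mem_DB] at hw
      rw [mem_VV]
      have h1 := shift (y := sg q k + q ^ k / 2) hw
      rw [show sg q k - (sg q k + q ^ k / 2) = -(q ^ k / 2) by ring, abs_neg,
        abs_of_nonneg (by linarith [hp k])] at h1
      have h2 : 0 ≤ q ^ k * R := mul_nonneg (hp k).le hR.le
      nlinarith
    · intro w hw
      rw [mem_DB] at hw
      rw [mem_VV]
      have h1 := shift (y := sg q k + q ^ k / 2) hw
      rw [sg_succ, show sg q k + q ^ k - (sg q k + q ^ k / 2) = q ^ k / 2 by ring,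
        abs_of_nonneg (by linarith [hp k])] at h1
      have h2 : 0 ≤ q ^ k * R := mul_nonneg (hp k).le hR.le
      have h3 : q ^ (k + 1) * R ≤ q ^ k * R :=
        mul_le_mul_of_nonneg_right (hanti (Nat.le_succ k)) hR.le
      nlinarith
  · -- (4)
    have key : ∀ {j k : ℕ}, j < k → Disjoint (DB a q R j) (DB a q R k) := by
      intro j k hjk
      rw [Set.disjoint_left]
      intro w hj hk
      rw [mem_DB] at hj hk
      have h1 := common hk hj
      have h2 := hsg1 (show j + 1 ≤ k from hjk)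
      have h3 := hp j
      rw [abs_of_nonneg (by linarith)] at h1
      have h4 : q ^ j * ‖a‖ ≤ (sg q k - sg q j) * ‖a‖ :=
        mul_le_mul_of_nonneg_right (by linarith) hna
      have h5 : q ^ k * R ≤ q ^ j * R := mul_le_mul_of_nonneg_right (hanti hjk.le) hR.le
      have h6 : q ^ j * (4 * R) < q ^ j * ‖a‖ := mul_lt_mul_of_pos_left hA2 h3
      have h7 : 0 < q ^ j * R := mul_pos h3 hR
      nlinarith
    intro j k hjk
    rcases lt_or_gt_of_ne hjk with h | h
    · exact key h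
    · exact (key h).symm
  · -- (5)
    intro k w
    refine ⟨ti_tm _ (hp k).ne' w, tm_ti _ (hp k).ne' w, ?_⟩
    simp [Ti, ti]
  · -- (6)
    intro k w
    have hqk := (hp k).ne'
    have hq0 := hq.ne'
    constructor
    · unfold Tk tm
      rw [ce_eq, ce_eq, sg_succ]
      ext1
      · simp only [Prod.fst_add, Prod.smul_fst, smul_add, add_smul, smul_smul, pow_succ]
        abel
      · simp only [Prod.snd_add, Prod.smul_snd, smul_add, smul_smul, pow_succ, zero_add,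
          smul_zero]
    · unfold Ti ti
      rw [ce_eq, ce_eq, sg_succ]
      have e1 : (q ^ (k + 1))⁻¹ = q⁻¹ * (q ^ k)⁻¹ := by rw [pow_succ, mul_inv, mul_comm]
      ext1
      · simp only [Prod.fst_sub, Prod.smul_fst, smul_sub, add_smul, smul_add, smul_smul, e1]
        rw [show q⁻¹ * (q ^ k)⁻¹ * q ^ k = q⁻¹ by field_simp]
        abel
      · simp only [Prod.snd_sub, Prod.smul_snd, smul_smul, e1, sub_zero]
  · -- (7)
    intro k w
    rw [mem_VV, Ti_sub a hq k (1 / 2) w, inv_mul_le_iff₀ (hp k),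
      show sg q k + q ^ k * (1 / 2) = sg q k + q ^ k / 2 by ring]
  · -- (8)
    intro k w
    constructor
    · have h := Ti_sub a hq k 0 w
      rw [zero_smul, show ((0, 0) : WW n) = 0 from rfl, sub_zero, mul_zero, add_zero] at h
      rw [mem_DB, h, inv_mul_le_iff₀ (hp k)]
    · have h := Ti_sub a hq k 1 w
      rw [one_smul, mul_one, ← sg_succ] at h
      rw [mem_DB, h, inv_mul_le_iff₀ (hp k), pow_succ, mul_assoc]
  · -- (9)
    intro k
    exact isClosed_le (by fun_prop) continuous_const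
  · -- (10)
    intro hq2 k w hw
    rw [mem_VV] at hw
    have h1 := shift' (y := (1 - q)⁻¹) hw
    have hpos : 0 < 1 - q := by linarith
    have hinv : 1 + q ≤ (1 - q)⁻¹ := by
      rw [le_inv_comm₀ (by linarith) hpos, inv_eq_one_div, le_div_iff₀ (by linarith)]
      nlinarith [sq_nonneg q]
    have h2 : sg q k + q ^ k / 2 - (1 - q)⁻¹ = -(q ^ k * ((1 - q)⁻¹ - 1 / 2)) := by
      rw [sg_geom hq2]; ring
    rw [h2, abs_neg, abs_of_nonneg (mul_nonneg (hp k).le (by linarith))] at h1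
    have h3 : q * ‖a‖ ≤ ((1 - q)⁻¹ - 1) * ‖a‖ :=
      mul_le_mul_of_nonneg_right (by linarith) hna
    have h4 : q ^ k * (2 * R) ≤ q ^ k * (((1 - q)⁻¹ - 1) * ‖a‖ - 2 * R) :=
      mul_le_mul_of_nonneg_left (by linarith) (hp k).le
    have h5 : q ^ k * ((1 - q)⁻¹ - 1 / 2) * ‖a‖ - q ^ k * (‖a‖ / 2 + 2 * R)
        = q ^ k * (((1 - q)⁻¹ - 1) * ‖a‖ - 2 * R) := by ring
    linarith
  · -- (11)
    intro hq2 k w hw
    rw [mem_VV] at hw
    have h1 := shift (y := 0) hw
    rw [zero_smul, sub_zero, abs_of_nonneg (by linarith [hsgnn k, hp k]),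
      show ((0, 0) : WW n) = 0 from rfl, sub_zero] at h1
    have hpos : 0 < 1 - q := by linarith
    have h2 : sg q k ≤ (1 - q)⁻¹ := by
      rw [sg_geom hq2]
      have : 0 ≤ q ^ k * (1 - q)⁻¹ := mul_nonneg (hp k).le (inv_nonneg.2 hpos.le)
      linarith
    have h3 : sg q k * ‖a‖ ≤ (1 - q)⁻¹ * ‖a‖ := mul_le_mul_of_nonneg_right h2 hna
    have h4 : q ^ k * (‖a‖ + 2 * R) ≤ 1 * (‖a‖ + 2 * R) :=
      mul_le_mul_of_nonneg_right (hp1 k) (by linarith)
    nlinarith
  · -- (12)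
    intro hq2 k w hw
    subst hq2
    rw [mem_VV] at hw
    have h1 := shift' (y := 0) hw
    have hsk : sg 1 k = k := by simp [sg]
    rw [zero_smul, sub_zero, hsk, one_pow,
      abs_of_nonneg (by positivity), show ((0, 0) : WW n) = 0 from rfl, sub_zero] at h1
    nlinarith

end Pool.Agent.Helper72.LC
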